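import Pool.Agent.V11191.Comp.Final

/-!
# MP_8cdf0c_pr: with positive probability the Brownian span set has infinitely many components
-/

open Set MeasureTheory Filter Topology ProbabilityTheory
open scoped NNReal ENNReal

namespace Pool.Agent.Results.MP_8cdf0c_pr.InfinitelyManyComponents

/-- the span set `{t - s : 0 ≤ s ≤ t ≤ 1, w(s) = w(t)}` -/
def SpanSet (w : ℝ → ℝ) : Set ℝ :=
  {u | ∃ s t : ℝ, 0 ≤ s ∧ s ≤ t ∧ t ≤ 1 ∧ w s = w t ∧ u = t - s}

/-- the connected components of a set of real numbers -/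
def Components (S : Set ℝ) : Set (Set ℝ) := {C | ∃ x ∈ S, C = connectedComponentIn S x}

/-- **For every Brownian motion there is an event of positive probability on which the span set on
`[0,1]` has infinitely many connected components; in particular it is not a finite union of closed
intervals.** -/
theorem result {Ω : Type*} [MeasurableSpace Ω] {P : Measure Ω} {B : ℝ≥0 → Ω → ℝ}
    (hB : IsBrownianReal B P) :
    ∃ A : Set Ω, MeasurableSet A ∧ 0 < P A ∧ ∀ ω ∈ A,
      (Components (SpanSet (fun t => B t.toNNReal ω))).Infinite ∧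
      ¬ ∃ (n : ℕ) (c d : Fin n → ℝ), SpanSet (fun t => B t.toNNReal ω) = ⋃ i, Icc (c i) (d i) := by
  obtain ⟨A, hA, hpos, h⟩ := V11191.Comp.main_inf hB
  refine ⟨A, hA, hpos, fun ω hω => ⟨(h ω hω).2, ?_⟩⟩
  rintro ⟨n, c, d, hS⟩
  refine (h ω hω).1 (range fun i => (c i, d i)) (finite_range _) ?_
  show SpanSet (fun t => B t.toNNReal ω) = _
  rw [hS, biUnion_range]

end Pool.Agent.Results.MP_8cdf0c_pr.InfinitelyManyComponents
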